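import Pool.Agent.WAT.StmtsF
import Pool.Agent.Helper24_AT8.FN8

/-!
# Squad WAT, row FNW

The final theorem for characters (adapted from `Helper24_AT8/FN8`, `Helper7_AT12/FNC`).
-/

open scoped BigOperators

set_option autoImplicit false

noncomputable section

namespace Pool.Agent.PP.TV.H66

open Pool.Agent.Helper51_AWC Pool.Agent.Helper79_WRA Pool.Agent.PP Pool.Agent.PP.KF
open Pool.Agent.PP.K9 Pool.Agent.PP.K9.H97 Pool.Agent.PP.H75 Pool.Agent.PP.T3 Pool.Agent.PP.T2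
open Pool.Agent.PP.T8 Pool.Agent.PP.T8.H24

attribute [local instance] Ideal.Quotient.field

/-- the passage to the quotient by the core -/
theorem core (hF : T3.FltStmt) (hZ : T2.DzaStmt) (hQ : T8.Qt3Stmt) (hInx : K9.InxStmt)
    (ℓ : ℕ) [hfact : Fact ℓ.Prime] (M : Ideal (integralClosure ℤ ℂ)) [M.IsMaximal]
    (hM : (ℓ : integralClosure ℤ ℂ) ∈ M) (G : Type) [Group G] [Finite G]
    (hc : opCore ℓ G ≤ Subgroup.center G) (χ : G → ℂ) (hχ : χ ∈ Irr G) (D : Subgroup G)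
    (hD : ML.IsDef ℓ M χ D) (hab : ∀ x ∈ D, ∀ y ∈ D, x * y = y * x)
    (θ : Subgroup.centralizer (D : Set G) → ℂ)
    (hθ : θ ∈ IrrBlock M (Subgroup.centralizer (D : Set G)).subtype χ)
    (A : Type) [Group A] [Finite A] (p : G →* A) (hsurj : Function.Surjective p)
    (hker : p.ker = opCore ℓ G) :
    ∃ (e γ : G → FF M) (γ' : A → FF M), Ld ℓ e D γ ∧ (Tg D γ : Set G) = Iner M D θ ∧
      Ld ℓ (push p e) (D.map p) γ' ∧ (∃ P : G →* A, Tr D γ (D.map p) γ' P) ∧
      Fq D γ (D.map p) γ' ∧ (D ≠ opCore ℓ G → D.map p ≠ ⊥) ∧ ¬ ℓ ∣ ix D γ ∧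
      (Fd ℓ M D θ → Fr (D.map p) γ') ∧ (YY ℓ ⊤ (push p e) = 0 → altSum ℓ M χ = 0) := by
  have hℓ := hfact.out
  have hGF : GoodF ℓ (FF M) := H50.fld ℓ hℓ M hM
  obtain ⟨e, he, h1, h2⟩ := H50.bid ℓ hℓ M hM G χ hχ
  have hn : (opCore ℓ G).Normal := H75.opCore_normal (A := G) ℓ
  have hkp : IsPGroup ℓ p.ker := by
    rw [hker]
    exact H75.opCore_isPGroup hℓ
  have hkc : p.ker ≤ Subgroup.center G := by
    rw [hker]
    exact hc
  have heq := H75.altSum_central H20.nls H20.brm H63.smt H94.nch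
    (H50.dic H20.ibn H20.nls H20.brm) hℓ M hM hGF hsurj hker hkp hkc χ hχ e he h1 h2
  obtain ⟨hbf, hZD, hcardD, γ₀, hγ₀⟩ := hZ ℓ M hM G hc χ hχ D hD (fun x hx y hy => by
    rw [hab x hx y hy, mul_inv_cancel_right, mul_inv_cancel]
    exact (opCore ℓ G).one_mem) e he h1 A p hsurj hker
  obtain ⟨γ, hγ, hTg⟩ := hF ℓ M hM G χ hχ e he h1 D hD hab θ hθ
  have hmemT : ∀ t, t ∈ Tg D γ ↔ t ∈ Iner M D θ := by
    intro t
    rw [← hTg]
    rfl
  -- the normaliser of the core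
  obtain ⟨q, hq⟩ : ∃ q : Subgroup.normalizer (opCore ℓ G : Set G) →* A,
      q = p.comp (Subgroup.normalizer (opCore ℓ G : Set G)).subtype := ⟨_, rfl⟩
  have hnt : Subgroup.normalizer (opCore ℓ G : Set G) = ⊤ :=
    Subgroup.normalizer_eq_top (opCore ℓ G)
  have hqs : Function.Surjective q := by
    intro y
    obtain ⟨x, hx⟩ := hsurj y
    refine ⟨⟨x, hnt ▸ Subgroup.mem_top x⟩, ?_⟩
    rw [hq]
    exact hx
  have hqk : q.ker = (opCore ℓ G).subgroupOf (Subgroup.normalizer (opCore ℓ G : Set G)) := by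
    ext x
    rw [MonoidHom.mem_ker, Subgroup.mem_subgroupOf, hq]
    have h3 : (x : G) ∈ p.ker ↔ (x : G) ∈ opCore ℓ G := by rw [hker]
    rw [← h3, MonoidHom.mem_ker]
    rfl
  have hbr : br (opCore ℓ G) e = e := by
    funext t
    unfold br
    rw [if_pos]
    rw [Subgroup.mem_centralizer_iff]
    intro z hz
    exact (Subgroup.mem_center_iff.1 (hc hz) t).symm
  have hpq : push q (fun t : Subgroup.normalizer (opCore ℓ G : Set G) => br (opCore ℓ G) e t) =
      push p e := by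
    classical
    have := Fintype.ofFinite G
    have := Fintype.ofFinite (Subgroup.normalizer (opCore ℓ G : Set G))
    rw [hbr]
    funext y
    rw [push_eq, push_eq]
    refine Fintype.sum_bijective
      (fun x : Subgroup.normalizer (opCore ℓ G : Set G) => (x : G))
      ⟨Subtype.val_injective, fun g => ⟨⟨g, hnt ▸ Subgroup.mem_top g⟩, rfl⟩⟩ _ _ fun x => ?_
    rw [hq]
    rfl
  have hmap : (D.subgroupOf (Subgroup.normalizer (opCore ℓ G : Set G))).map q = D.map p := by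
    ext y
    constructor
    · rintro ⟨x, hx, rfl⟩
      rw [hq]
      exact ⟨x, Subgroup.mem_subgroupOf.1 hx, rfl⟩
    · rintro ⟨x, hx, rfl⟩
      refine ⟨⟨x, hnt ▸ Subgroup.mem_top x⟩, Subgroup.mem_subgroupOf.2 hx, ?_⟩
      rw [hq]
      rfl
  obtain ⟨γ', hV', n, hnD, hact⟩ := hQ ℓ M hM G e D γ hγ (opCore ℓ G) hZD A q hqs hqk (push p e)
    hbf (by rw [hpq]; exact hbf.1.2) (by rw [hmap]; exact hγ₀.tp)
  rw [hmap] at hV' hact
  have hnD' : ∀ v, v ∈ D ↔ n * v * n⁻¹ ∈ D := Subgroup.mem_normalizer_iff.1 hnD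
  -- the transfer
  have hTr : Tr D γ (D.map p) γ' (p.comp (MulAut.conj n).toMonoidHom) := by
    refine ⟨hab, ?_, ?_⟩
    · rintro y ⟨x, hx, rfl⟩
      refine ⟨n⁻¹ * x * n, ?_, ?_⟩
      · rw [hnD']
        have e1 : n * (n⁻¹ * x * n) * n⁻¹ = x := by group
        rw [e1]
        exact hx
      · show p (n * (n⁻¹ * x * n) * n⁻¹) = p x
        congr 1
        group
    · intro t' ht'
      obtain ⟨t, ht, h3⟩ := hact t' ht'
      refine ⟨t, ht, fun v hv => ?_⟩
      have h4 := h3 v hv ⟨n * v * n⁻¹, hnt ▸ Subgroup.mem_top _⟩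
        ⟨n * (t * v * t⁻¹) * n⁻¹, hnt ▸ Subgroup.mem_top _⟩ rfl rfl
      rw [hq] at h4
      exact h4
  have hcop : ¬ ℓ ∣ ix D γ := hInx ℓ M hM G e he D hγ.tp hab γ hγ.gam.supp hγ.gam.blk hγ.und
  have hFr : Fd ℓ M D θ → Fr (D.map p) γ' := by
    intro hfd t' ht' v' hv' hne hcom
    obtain ⟨v, hv, rfl⟩ := hTr.sur v' hv'
    obtain ⟨t, ht, h3⟩ := hTr.act t' ht'
    obtain ⟨w, hw, hw1, hw2⟩ := hTr.fix ht h3 hv hcom (pow_ix ht)
    have hwZ : w ∉ opCore ℓ G := by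
      intro hwz
      have e1 : n * w * n⁻¹ ∈ opCore ℓ G := hn.conj_mem _ hwz n
      rw [← hker, MonoidHom.mem_ker] at e1
      have e2 : (p.comp (MulAut.conj n).toMonoidHom) w = 1 := e1
      rw [e2] at hw2
      obtain ⟨y, hy⟩ : ∃ y : D.map p, (y : A) = (p.comp (MulAut.conj n).toMonoidHom) v :=
        ⟨⟨_, hv'⟩, rfl⟩
      obtain ⟨k, hk⟩ := hV'.tp.pg y
      have e3 : orderOf y ∣ ℓ ^ k := orderOf_dvd_of_pow_eq_one hk
      have e4 : orderOf y ∣ ix D γ := by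
        apply orderOf_dvd_of_pow_eq_one
        apply Subtype.ext
        rw [Subgroup.coe_pow, hy, ← hw2]
        rfl
      have e5 : Nat.Coprime (ℓ ^ k) (ix D γ) :=
        Nat.Coprime.pow_left _ ((Nat.Prime.coprime_iff_not_dvd hℓ).2 hcop)
      have e6 : orderOf y = 1 := Nat.eq_one_of_dvd_coprimes e5 e3 e4
      rw [orderOf_eq_one_iff] at e6
      apply hne
      rw [← hy, e6]
      rfl
    have htC := hfd t ((hmemT t).1 ht) w hw hwZ hw1
    rw [Subgroup.mem_centralizer_iff]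
    intro y hy
    obtain ⟨u, hu, rfl⟩ := hTr.sur y hy
    have e7 := h3 u hu
    rw [← Subgroup.mem_centralizer_iff.1 htC u hu, mul_inv_cancel_right] at e7
    have e8 := mul_inv_eq_iff_eq_mul.1 e7.symm
    exact e8.symm
  have hFq : Fq D γ (D.map p) γ' := by
    refine ⟨((p.comp (MulAut.conj n).toMonoidHom).comp D.subtype).codRestrict (D.map p)
      (fun x => ⟨n * x * n⁻¹, (hnD' x).1 x.2, rfl⟩), ?_, ?_⟩
    · rintro ⟨y, hy⟩
      obtain ⟨v, hv, hvy⟩ := hTr.sur y hy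
      exact ⟨⟨v, hv⟩, Subtype.ext hvy⟩
    · intro t' ht'
      obtain ⟨t, ht, h3⟩ := hTr.act t' ht'
      refine ⟨t, ht, fun v w hvw => ?_⟩
      have h4 := h3 v v.2
      rw [← hvw] at h4
      exact h4
  refine ⟨e, γ, γ', hγ, hTg, hV', ⟨_, hTr⟩, hFq, ?_, hcop, hFr, ?_⟩
  · intro hne h0
    apply hne
    refine le_antisymm ?_ hZD
    rw [← hker]
    exact (Subgroup.map_eq_bot_iff _).1 h0
  · intro h0
    rw [h0, mul_zero] at heq
    rcases mul_eq_zero.1 heq with h | h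
    · exact absurd h (by exact_mod_cast (Nat.card_pos (α := G)).ne')
    · exact h

/-- row FNW -/
theorem fnw (hF : T3.FltStmt) (hZ : T2.DzaStmt) (hQ : T8.Qt3Stmt) (hInx : K9.InxStmt)
    (hT : T12.TcaStmt) (h3a : T3.T3aStmt) (hABR : AbrStmt) (hCLV : ClvStmt) : FnwStmt := by
  intro ℓ hfact M _ hM G _ _ hc χ hχ D hD hDO hab θ hθ hty
  have hℓ := hfact.out
  have hGF : GoodF ℓ (FF M) := H50.fld ℓ hℓ M hM
  have hn : (opCore ℓ G).Normal := H75.opCore_normal (A := G) ℓ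
  -- the common part of the first three cases
  have key : (∀ γ : G → FF M, ∀ e : G → FF M, Ld ℓ e D γ → (Tg D γ : Set G) = Iner M D θ →
      ¬ ℓ ∣ ix D γ → RK2.Rk2 (Vc D γ) ∨ (Fc D γ ∧ ix D γ ≤ ℓ) ∨ (5 ≤ ℓ ∧ 3 * ix D γ ≤ ℓ)) →
      altSum ℓ M χ = 0 := by
    intro hkey
    obtain ⟨e, γ, γ', hγ, hTg, hV', -, hFq, hne, hcop, -, hfin⟩ :=
      core hF hZ hQ hInx ℓ M hM G hc χ hχ D hD hab θ hθ (G ⧸ opCore ℓ G)
        (QuotientGroup.mk' (opCore ℓ G)) (QuotientGroup.mk'_surjective _)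
        (QuotientGroup.ker_mk' _)
    obtain ⟨c1, c2, c3⟩ := hCLV ℓ (FF M) hGF G _ e D γ _ _ γ' hγ hV' hcop hFq
    apply hfin
    rcases hkey γ e hγ hTg hcop with h | ⟨h, h'⟩ | ⟨h, h'⟩
    · exact hABR ℓ M hM _ _ _ γ' hV' (hne hDO) (Or.inl (c1 h))
    · exact hABR ℓ M hM _ _ _ γ' hV' (hne hDO) (Or.inr ⟨c2 h, c3.trans h'⟩)
    · exact h3a ℓ M hM _ _ _ γ' hV' (hne hDO) h (by omega)
  have hVD : ∀ γ : G → FF M, (Tg D γ : Set G) = Iner M D θ → Vc D γ ≤ Dc M D θ := by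
    intro γ hTg
    unfold Vc
    rw [Subgroup.commutator_le]
    intro t ht d hd
    refine Subgroup.subset_closure ⟨t, ?_, d, hd, rfl⟩
    rw [← hTg]
    exact ht
  have hIn : ∀ γ e : G → FF M, Ld ℓ e D γ → (Tg D γ : Set G) = Iner M D θ →
      (Iner M D θ).ncard = ix D γ * Nat.card (Subgroup.centralizer (D : Set G)) := by
    intro γ e hγ hTg
    rw [card_Tg hγ, ← hTg]
    rfl
  have hCpos : 0 < Nat.card (Subgroup.centralizer (D : Set G)) := Nat.card_pos
  rcases hty with ⟨a, ha, b, hb, hle⟩ | ⟨hI, hfree⟩ | h3 | ⟨h2l, A, _, _, p, a, hsurj, hker, hexp,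
    hty⟩
  · refine key fun γ e hγ hTg hcop => Or.inl ?_
    have h1 : RK2.Rk2 (Subgroup.closure ({a, b} : Set G)) := by
      have hcl : Subgroup.closure ({a, b} : Set G) ≤ D := by
        rw [Subgroup.closure_le]
        rintro z (rfl | hz)
        · exact ha
        · rw [Set.mem_singleton_iff.1 hz]
          exact hb
      refine ⟨fun x y => Subtype.ext (hab x (hcl x.2) y (hcl y.2)),
        ⟨a, Subgroup.subset_closure (Set.mem_insert _ _)⟩,
        ⟨b, Subgroup.subset_closure (Set.mem_insert_of_mem _ rfl)⟩, ?_⟩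
      apply Subgroup.map_injective (Subgroup.subtype_injective (Subgroup.closure ({a, b} : Set G)))
      rw [MonoidHom.map_closure, Set.image_pair, ← MonoidHom.range_eq_map, Subgroup.range_subtype]
      rfl
    exact RK2.rk2_sub (Subgroup.inclusion ((hVD γ hTg).trans hle))
      (Subgroup.inclusion_injective _) h1
  · refine key fun γ e hγ hTg hcop => Or.inr (Or.inl ⟨?_, ?_⟩)
    · intro t ht v hv hne hcom
      refine hfree t ?_ v (hVD γ hTg hv) hne hcom
      rw [← hTg]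
      exact ht
    · have h4 : (Iner M D θ).ncard < (ℓ + 1) * Nat.card (Subgroup.centralizer (D : Set G)) := hI
      rw [hIn γ e hγ hTg] at h4
      have h5 := Nat.lt_of_mul_lt_mul_right h4
      omega
  · refine key fun γ e hγ hTg hcop => ?_
    rw [hIn γ e hγ hTg, ← mul_assoc] at h3
    have h4 : 3 * ix D γ ≤ ℓ := Nat.le_of_mul_le_mul_right h3 hCpos
    by_cases h5 : 5 ≤ ℓ
    · exact Or.inr (Or.inr ⟨h5, h4⟩)
    · left
      have hpos : ix D γ ≠ 0 := by
        intro h0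
        rw [h0] at hcop
        exact hcop (dvd_zero _)
      have h1 : ix D γ = 1 := by omega
      have hTC : Tg D γ ≤ Subgroup.centralizer (D : Set G) := by
        unfold ix at h1
        exact Subgroup.relIndex_eq_one.1 h1
      have hbot : Vc D γ = ⊥ := by
        unfold Vc
        rw [eq_bot_iff, Subgroup.commutator_le]
        intro t ht d hd
        rw [Subgroup.mem_bot, commutatorElement_eq_one_iff_mul_comm]
        exact (Subgroup.mem_centralizer_iff.1 (hTC ht) d hd).symm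
      rw [hbot]
      have hs : ∀ x : (⊥ : Subgroup G), x = 1 := fun x => Subtype.ext (Subgroup.mem_bot.1 x.2)
      refine ⟨fun x y => by rw [hs x, hs y], 1, 1, ?_⟩
      rw [Subgroup.eq_top_iff']
      intro x
      rw [hs x]
      exact Subgroup.one_mem _
  · obtain ⟨e, γ, γ', hγ, hTg, hV', ⟨P, hTr⟩, hFq, hne, hcop, hFr, hfin⟩ :=
      core hF hZ hQ hInx ℓ M hM G hc χ hχ D hD hab θ hθ A p hsurj hker
    have hixle : ix (D.map p) γ' ≤ ix D γ := hTr.ix_le
    have hmemT : ∀ t, t ∈ Tg D γ ↔ t ∈ Iner M D θ := by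
      intro t
      rw [← hTg]
      rfl
    have hIn' : ∀ n : ℕ, In M D θ n → ix D γ < n := by
      intro n hI
      unfold In at hI
      rw [hIn γ e hγ hTg] at hI
      exact Nat.lt_of_mul_lt_mul_right hI
    apply hfin
    refine hT ℓ M hM h2l a A (push p e) (D.map p) γ' hV' ?_
    rcases hty with ⟨k, hk0, hka, hk, hsz, hei⟩ | ⟨ha, hfd, hin⟩
    · refine Or.inl (Or.inl ⟨k, hk0, hka, hexp, ?_, hsz, ?_⟩)
      · rcases hk with hk | hk | ⟨hk, hfd⟩
        · exact Or.inl hk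
        · exact Or.inr (Or.inl (lt_of_le_of_lt hixle (hIn' _ hk)))
        · exact Or.inr (Or.inr ⟨lt_of_le_of_lt hixle (hIn' _ hk), hFr hfd⟩)
      · rcases hei with hei | hei | hei
        · exact Or.inl (hTr.abel fun s hs t ht => hei s ((hmemT s).1 hs) t ((hmemT t).1 ht))
        · exact Or.inr (Or.inl (lt_of_le_of_lt hixle (hIn' _ hei)))
        · exact Or.inr (Or.inr (hFr hei))
    · exact Or.inl (Or.inr (Or.inr
        ⟨ha, hexp, hFr hfd, hixle.trans (Nat.lt_succ_iff.1 (hIn' _ hin))⟩))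

end Pool.Agent.PP.TV.H66
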