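import Pool.Agent.ATW.AsmT
import Pool.Agent.ATW.Rank2b
import Pool.Agent.AT12.Asm
import Pool.Agent.Helper98_ASE.Asm
import Pool.Agent.Helper13_WAT.CLV
import Pool.Agent.Helper13_WAT.NLB
import Pool.Agent.Helper13_WAT.WAT
import Pool.Agent.Helper24_WAT.FOU
import Pool.Agent.Helper38_WAT.ABR
import Pool.Agent.Helper38_WAT.DBL
import Pool.Agent.Helper46_WAT.TGI
import Pool.Agent.Helper47_WAT.RB2
import Pool.Agent.Helper60_WAT.CPV
import Pool.Agent.Helper66_WAT.FNW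
import Pool.Agent.Helper66_WAT.TSN
import Pool.Agent.Helper88_WAT.SMM
import Pool.Agent.Helper89_WAT.TVA

/-!
# Squad WAT: the statements, closed

`abr_ : AbrStmt`: the theorem for blocks; `fnw_ : FnwStmt`: the final theorem.
-/

open scoped BigOperators

noncomputable section

namespace Pool.Agent.PP.TV

theorem clv_ : ClvStmt := H13.clv

theorem cpv_ : CpvStmt := H60.cpv

theorem dbl_ : DblStmt := H38.dbl

theorem fou_ : FouStmt := H24.fou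

theorem nlb_ : NlbStmt := H13.nlb

theorem smm_ : SmmStmt := H88.smm T5.co3_ T3.smg_ T3.lrk_

theorem tgi_ : TgiStmt := H46.tgi TB.zcp_ TB.zin_

theorem tsn_ : TsnStmt := H66.tsn T2.pwu_ T3.qt1_ T8.qt3_ T3.lcj_ T8.fqt_ T2.ort_ T2.teb_

theorem tva_ : TvaStmt := H89.tva tgi_ TB.zcp_ TB.poz_ TB.pjz_

theorem wat_ : WatStmt :=
  H13.wat TW.sta_ tva_ smm_ fou_ cpv_ dbl_ T3.loc_ T3.lsb_ TB.zcp_ K9.H34.inx

theorem rb2_ : Rb2Stmt := H47.rb2 (fun ℓ => TW.tt_ ℓ) SE.s2f_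

theorem abr_ : AbrStmt :=
  H38.abr wat_ tsn_ nlb_ clv_ rb2_ cpv_ T8.t8a_ T2.fst_ T3.loc_ T3.lsb_ K9.H34.inx

theorem fnw_ : FnwStmt :=
  H66.fnw T3.flt_ T2.dza_ T8.qt3_ K9.H34.inx T12.tca_ T3.t3a_ abr_ clv_

end Pool.Agent.PP.TV
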